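import Pool.Agent.H63.WS.Stm

/-!
Project WS (helper63): the main estimate for a positive linear functional.
-/

set_option autoImplicit false

namespace Pool.Agent.H225.WS

open Finset Pool.Agent.H63.WS

section bdd

variable {X : Type}

theorem bdd_const (a : ℝ) : Bdd (fun _ : X => a) := ⟨|a|, fun _ => le_rfl⟩

theorem bdd_add {f g : X → ℝ} (hf : Bdd f) (hg : Bdd g) : Bdd (fun v => f v + g v) := by
  obtain ⟨C, hC⟩ := hf
  obtain ⟨D, hD⟩ := hg
  exact ⟨C + D, fun v => (abs_add_le _ _).trans (add_le_add (hC v) (hD v))⟩

theorem bdd_mul {f g : X → ℝ} (hf : Bdd f) (hg : Bdd g) : Bdd (fun v => f v * g v) := by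
  obtain ⟨C, hC⟩ := hf
  obtain ⟨D, hD⟩ := hg
  refine ⟨|C| * |D|, fun v => ?_⟩
  rw [abs_mul]
  exact mul_le_mul ((hC v).trans (le_abs_self C)) ((hD v).trans (le_abs_self D)) (abs_nonneg _)
    (abs_nonneg _)

theorem bdd_smul {f : X → ℝ} (a : ℝ) (hf : Bdd f) : Bdd (fun v => a * f v) :=
  bdd_mul (bdd_const a) hf

theorem bdd_sub {f g : X → ℝ} (hf : Bdd f) (hg : Bdd g) : Bdd (fun v => f v - g v) := by
  have h1 := bdd_add hf (bdd_smul (-1) hg)
  have h2 : (fun v => f v - g v) = fun v => f v + (-1) * g v := by
    funext v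
    ring
  rw [h2]
  exact h1

theorem bdd_abs {f : X → ℝ} (hf : Bdd f) : Bdd (fun v => |f v|) := by
  obtain ⟨C, hC⟩ := hf
  exact ⟨C, fun v => by rw [abs_abs]; exact hC v⟩

theorem bdd_sum {κ : Type} (s : Finset κ) {f : κ → X → ℝ} (hf : ∀ i ∈ s, Bdd (f i)) :
    Bdd (fun v => ∑ i ∈ s, f i v) := by
  classical
  induction s using Finset.induction_on with
  | empty =>
    simp only [Finset.sum_empty]
    exact bdd_const 0
  | insert a s ha ih =>
    simp only [Finset.sum_insert ha]
    exact bdd_add (hf a (Finset.mem_insert_self a s)) (ih fun i hi => hf i (Finset.mem_insert_of_mem hi))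

theorem bdd_prod {κ : Type} (s : Finset κ) {f : κ → X → ℝ} (hf : ∀ i ∈ s, Bdd (f i)) :
    Bdd (fun v => ∏ i ∈ s, f i v) := by
  classical
  induction s using Finset.induction_on with
  | empty =>
    simp only [Finset.prod_empty]
    exact bdd_const 1
  | insert a s ha ih =>
    simp only [Finset.prod_insert ha]
    exact bdd_mul (hf a (Finset.mem_insert_self a s)) (ih fun i hi => hf i (Finset.mem_insert_of_mem hi))

theorem continuous_comb (M : ℕ) (c : ℕ → ℝ) : Continuous (comb M c) := by
  unfold comb
  refine continuous_finsetSum _ fun k _ => continuous_const.mul ?_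
  unfold Uc
  exact Polynomial.continuous _

theorem bdd_comb (M : ℕ) (c : ℕ → ℝ) {y : X → ℝ} (hy : ∀ v, y v ∈ Set.Icc (-1 : ℝ) 1) :
    Bdd (fun v => comb M c (y v)) := by
  obtain ⟨C, hC⟩ := isCompact_Icc.exists_bound_of_continuousOn (s := Set.Icc (-1 : ℝ) 1)
    (continuous_comb M c).continuousOn
  exact ⟨C, fun v => hC _ (hy v)⟩

variable {L : (X → ℝ) → ℝ} (hL : IsMean L)

include hL

theorem L_sub {f g : X → ℝ} (hf : Bdd f) (hg : Bdd g) : L (fun v => f v - g v) = L f - L g := by
  have h1 := hL.add f (fun v => (-1) * g v) hf (bdd_smul _ hg)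
  rw [hL.smul (-1) g hg] at h1
  have h2 : (fun v => f v - g v) = fun v => f v + (-1) * g v := by
    funext v
    ring
  rw [h2, h1]
  ring

theorem L_abs {f g : X → ℝ} (hf : Bdd f) (hg : Bdd g) (h : ∀ v, |f v| ≤ g v) : |L f| ≤ L g := by
  rw [abs_le]
  constructor
  · have h1 := hL.mono (fun v => (-1) * g v) f (bdd_smul _ hg) hf fun v => by
      have := (abs_le.1 (h v)).1
      linarith
    rw [hL.smul (-1) g hg] at h1
    linarith
  · exact hL.mono f g hf hg fun v => (abs_le.1 (h v)).2

theorem L_zero : L (fun _ => 0) = 0 := by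
  have h1 := hL.smul 0 (fun _ => 1) (bdd_const 1)
  simpa using h1

theorem L_sum {κ : Type} (s : Finset κ) {f : κ → X → ℝ} (hf : ∀ i ∈ s, Bdd (f i)) :
    L (fun v => ∑ i ∈ s, f i v) = ∑ i ∈ s, L (f i) := by
  classical
  induction s using Finset.induction_on with
  | empty =>
    simp only [Finset.sum_empty]
    exact L_zero hL
  | insert a s ha ih =>
    have hf' : ∀ i ∈ s, Bdd (f i) := fun i hi => hf i (Finset.mem_insert_of_mem hi)
    rw [Finset.sum_insert ha, ← ih hf', ← hL.add _ _ (hf a (Finset.mem_insert_self a s))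
      (bdd_sum s hf')]
    simp only [Finset.sum_insert ha]

end bdd

/-- differences of products -/
theorem prod_diff {κ : Type} (s : Finset κ) (K : ℝ) (hK : 1 ≤ K) (a b : κ → ℝ)
    (ha : ∀ i ∈ s, |a i| ≤ K) (hb : ∀ i ∈ s, |b i| ≤ K) :
    |∏ i ∈ s, a i - ∏ i ∈ s, b i| ≤ K ^ s.card * ∑ i ∈ s, |a i - b i| := by
  classical
  induction s using Finset.induction_on with
  | empty => simp
  | insert j s hj ih =>
    rw [Finset.prod_insert hj, Finset.prod_insert hj, Finset.sum_insert hj,
      Finset.card_insert_of_notMem hj]
    have ha' : ∀ i ∈ s, |a i| ≤ K := fun i hi => ha i (Finset.mem_insert_of_mem hi)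
    have hb' : ∀ i ∈ s, |b i| ≤ K := fun i hi => hb i (Finset.mem_insert_of_mem hi)
    have h1 := ih ha' hb'
    have h2 : |∏ i ∈ s, a i| ≤ K ^ s.card := by
      rw [Finset.abs_prod, ← Finset.prod_const]
      exact Finset.prod_le_prod (fun i _ => abs_nonneg _) ha'
    have h3 : a j * ∏ i ∈ s, a i - b j * ∏ i ∈ s, b i =
        (a j - b j) * ∏ i ∈ s, a i + b j * (∏ i ∈ s, a i - ∏ i ∈ s, b i) := by ring
    have h4 : |b j| ≤ K := hb j (Finset.mem_insert_self j s)
    have h5 : (0 : ℝ) ≤ K ^ s.card := by positivity
    have h6 : (0 : ℝ) ≤ ∑ i ∈ s, |a i - b i| := Finset.sum_nonneg fun i _ => abs_nonneg _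
    have h7 : K ^ s.card ≤ K ^ (s.card + 1) := pow_le_pow_right₀ hK (Nat.le_succ _)
    calc |a j * ∏ i ∈ s, a i - b j * ∏ i ∈ s, b i| ≤
        |a j - b j| * |∏ i ∈ s, a i| + |b j| * |∏ i ∈ s, a i - ∏ i ∈ s, b i| := by
          rw [h3, ← abs_mul, ← abs_mul]
          exact abs_add_le _ _
      _ ≤ |a j - b j| * K ^ (s.card + 1) + K * (K ^ s.card * ∑ i ∈ s, |a i - b i|) :=
          add_le_add (mul_le_mul_of_nonneg_left (h2.trans h7) (abs_nonneg _))
            (mul_le_mul h4 h1 (abs_nonneg _) (by linarith))
      _ = K ^ (s.card + 1) * (|a j - b j| + ∑ i ∈ s, |a i - b i|) := by ring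

/-- extension of the coefficients by zero -/
noncomputable def pad (M : ℕ) (c : ℕ → ℝ) (l : ℕ) : ℝ := if l < M then c l else 0

theorem comb_pad {M N : ℕ} (h : M ≤ N) (c : ℕ → ℝ) (y : ℝ) : comb N (pad M c) y = comb M c y := by
  unfold comb pad
  rw [← Finset.sum_subset (Finset.range_subset_range.2 h)]
  · refine Finset.sum_congr rfl fun l hl => ?_
    rw [if_pos (Finset.mem_range.1 hl)]
  · intro l _ hl
    rw [if_neg fun h1 => hl (Finset.mem_range.2 h1), zero_mul]

theorem comb_sub (N : ℕ) (c d : ℕ → ℝ) (y : ℝ) :
    comb N (fun l => c l - d l) y = comb N c y - comb N d y := by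
  unfold comb
  rw [← Finset.sum_sub_distrib]
  refine Finset.sum_congr rfl fun l _ => ?_
  ring

theorem Uc_zero (y : ℝ) : Uc 0 y = 1 := by
  unfold Uc
  simp

theorem comb_one (y : ℝ) : comb 1 (fun _ => 1) y = 1 := by
  unfold comb
  rw [Finset.sum_range_one, Uc_zero, one_mul]

theorem comb_add_one {N : ℕ} (hN : 1 ≤ N) (c : ℕ → ℝ) (y : ℝ) :
    comb N (fun l => (if l = 0 then 1 else 0) + c l) y = 1 + comb N c y := by
  unfold comb
  simp only [add_mul, Finset.sum_add_distrib]
  congr 1
  rw [Finset.sum_eq_single 0]
  · rw [if_pos rfl, Uc_zero, one_mul]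
  · intro l _ hl
    rw [if_neg hl, zero_mul]
  · intro h
    exact absurd (Finset.mem_range.2 hN) h

theorem prod_split {ι : Type} [Fintype ι] [DecidableEq ι] (B : Finset ι) (a b : ι → ℝ) :
    ∏ i, (if i ∈ B then a i else b i) = (∏ i ∈ B, a i) * ∏ i ∈ Bᶜ, b i := by
  rw [← Finset.prod_mul_prod_compl B]
  congr 1
  · exact Finset.prod_congr rfl fun i hi => if_pos hi
  · exact Finset.prod_congr rfl fun i hi => if_neg (Finset.mem_compl.1 hi)

theorem prod_expand {ι : Type} [Fintype ι] [DecidableEq ι] (a b : ι → ℝ) :
    ∏ i, (a i + b i) = ∑ B ∈ (univ : Finset ι).powerset, ∏ i, (if i ∈ B then a i else b i) := by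
  rw [Finset.prod_add]
  refine Finset.sum_congr rfl fun B _ => ?_
  rw [prod_split, Finset.compl_eq_univ_sdiff]

/-- **the main estimate** -/
theorem t_abs (hC : S_COMBO) : S_ABS := by
  intro X ι _ _ L hL x hx A hA k hk hV c hc m ε hm hap happ
  choose p e he0 hcP hE2 hmp using hap
  have hE0 : ∀ i v, 0 ≤ comb (A i) (e i) (x i v) := fun i v => (abs_nonneg _).trans (hcP i v)
  have he0' : ∀ i, 0 ≤ e i 0 := fun i => (abs_nonneg _).trans (hmp i)
  have hPE : ∀ i v, |comb (A i) (p i) (x i v)| ≤ 1 + comb (A i) (e i) (x i v) := by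
    intro i v
    have h1 := hcP i v
    have h2 := hc i v
    rw [abs_le] at h1 ⊢
    constructor <;> linarith [h1.1, h1.2, h2.1, h2.2]
  have hpe : ∀ i, |p i 0| ≤ 1 + e i 0 := by
    intro i
    have h1 := hmp i
    have h2 := hm i
    rw [abs_le] at h1 ⊢
    constructor <;> linarith [h1.1, h1.2, h2.1, h2.2]
  have hbP : ∀ i, Bdd (fun v => comb (A i) (p i) (x i v)) := fun i => bdd_comb _ _ (hx i)
  have hbE : ∀ i, Bdd (fun v => comb (A i) (e i) (x i v)) := fun i => bdd_comb _ _ (hx i)
  have hbc : ∀ i, Bdd (c i) := fun i => ⟨1, fun v => abs_le.2 ⟨by linarith [(hc i v).1], (hc i v).2⟩⟩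
  have hbt : ∀ (B : Finset ι) (i : ι), Bdd (fun v => if i ∈ B then c i v - comb (A i) (p i) (x i v)
      else comb (A i) (p i) (x i v)) := by
    intro B i
    by_cases hi : i ∈ B
    · simp only [if_pos hi]
      exact bdd_sub (hbc i) (hbP i)
    · simp only [if_neg hi]
      exact hbP i
  -- the terms with few elements
  have hsmall : ∀ B : Finset ι, B.card < k →
      L (fun v => ∏ i, (if i ∈ B then c i v - comb (A i) (p i) (x i v)
        else comb (A i) (p i) (x i v))) = ∏ i, (if i ∈ B then m i - p i 0 else p i 0) := by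
    intro B hB
    obtain ⟨K, hK⟩ : ∃ K : ℝ, K = 4 + ∑ i, e i 0 := ⟨_, rfl⟩
    have hKe : ∀ i, 4 + e i 0 ≤ K := by
      intro i
      rw [hK]
      have := Finset.single_le_sum (f := fun i => e i 0) (fun i _ => he0' i) (Finset.mem_univ i)
      linarith
    have hK4 : 4 ≤ K := by
      rw [hK]
      have := Finset.sum_nonneg (s := (univ : Finset ι)) fun i _ => he0' i
      linarith
    obtain ⟨n, hn⟩ : ∃ n : ℕ, n = (univ : Finset ι).card := ⟨_, rfl⟩
    have key : ∀ η : ℝ, 0 < η → η ≤ 1 →
        |L (fun v => ∏ i, (if i ∈ B then c i v - comb (A i) (p i) (x i v)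
          else comb (A i) (p i) (x i v))) - ∏ i, (if i ∈ B then m i - p i 0 else p i 0)| ≤
        2 * (K ^ n * (n * η)) := by
      intro η hη hη1
      choose M hM1 hMap using fun i => happ i η hη
      choose g h hh0 hcG hH2 hmg using hMap
      have hH0 : ∀ i v, 0 ≤ comb (M i) (h i) (x i v) := fun i v => (abs_nonneg _).trans (hcG i v)
      have hh0' : ∀ i, 0 ≤ h i 0 := fun i => (abs_nonneg _).trans (hmg i)
      have hbG : ∀ i, Bdd (fun v => comb (M i) (g i) (x i v)) := fun i => bdd_comb _ _ (hx i)
      have hbH : ∀ i, Bdd (fun v => comb (M i) (h i) (x i v)) := fun i => bdd_comb _ _ (hx i)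
      -- the mean of `H`
      have hLH : ∀ i, L (fun v => comb (M i) (h i) (x i v)) = h i 0 := by
        intro i
        have h1 := hC X ι L hL x hx A k hV {i} (by rw [Finset.card_singleton]; omega)
          (fun j => if j = i then M i else 1) (fun j => by
            split_ifs
            · exact hM1 i
            · exact le_rfl)
          (fun j hj => by
            rw [if_neg fun h2 => hj (Finset.mem_singleton.2 h2)]
            exact hA j)
          (fun j => if j = i then h i else fun _ => 1)
        have h2 : (fun v => ∏ j, comb (if j = i then M i else 1)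
            (if j = i then h i else fun _ => 1) (x j v)) = fun v => comb (M i) (h i) (x i v) := by
          funext v
          rw [Finset.prod_eq_single i]
          · rw [if_pos rfl, if_pos rfl]
          · intro j _ hj
            rw [if_neg hj, if_neg hj, comb_one]
          · intro h3
            exact absurd (Finset.mem_univ i) h3
        have h3 : ∏ j, (if j = i then h i else fun _ => (1 : ℝ)) 0 = h i 0 := by
          rw [Finset.prod_eq_single i]
          · rw [if_pos rfl]
          · intro j _ hj
            rw [if_neg hj]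
          · intro h3
            exact absurd (Finset.mem_univ i) h3
        rw [h2, h3] at h1
        exact h1
      -- the combination
      have hcomb := hC X ι L hL x hx A k hV B hB
        (fun i => if i ∈ B then max (M i) (A i) else A i)
        (fun i => by
          split_ifs
          · exact (hM1 i).trans (le_max_left _ _)
          · exact hA i)
        (fun i hi => by rw [if_neg hi])
        (fun i => if i ∈ B then fun l => pad (M i) (g i) l - pad (A i) (p i) l else p i)
      have h2 : (fun v => ∏ i, comb (if i ∈ B then max (M i) (A i) else A i)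
          (if i ∈ B then fun l => pad (M i) (g i) l - pad (A i) (p i) l else p i) (x i v)) =
          fun v => ∏ i, (if i ∈ B then comb (M i) (g i) (x i v) - comb (A i) (p i) (x i v)
            else comb (A i) (p i) (x i v)) := by
        funext v
        refine Finset.prod_congr rfl fun i _ => ?_
        by_cases hi : i ∈ B
        · rw [if_pos hi, if_pos hi, if_pos hi, comb_sub, comb_pad (le_max_left _ _),
            comb_pad (le_max_right _ _)]
        · rw [if_neg hi, if_neg hi, if_neg hi]
      have h3 : ∏ i, (if i ∈ B then fun l => pad (M i) (g i) l - pad (A i) (p i) l else p i) 0 =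
          ∏ i, (if i ∈ B then g i 0 - p i 0 else p i 0) := by
        refine Finset.prod_congr rfl fun i _ => ?_
        by_cases hi : i ∈ B
        · rw [if_pos hi, if_pos hi]
          unfold pad
          rw [if_pos (show 0 < M i from hM1 i), if_pos (show 0 < A i from hA i)]
        · rw [if_neg hi, if_neg hi]
      rw [h2, h3] at hcomb
      have hbu : ∀ i, Bdd (fun v => if i ∈ B then comb (M i) (g i) (x i v) -
          comb (A i) (p i) (x i v) else comb (A i) (p i) (x i v)) := by
        intro i
        by_cases hi : i ∈ B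
        · simp only [if_pos hi]
          exact bdd_sub (hbG i) (hbP i)
        · simp only [if_neg hi]
          exact hbP i
      -- first difference
      have hd1 : |L (fun v => ∏ i, (if i ∈ B then c i v - comb (A i) (p i) (x i v)
          else comb (A i) (p i) (x i v))) -
          L (fun v => ∏ i, (if i ∈ B then comb (M i) (g i) (x i v) - comb (A i) (p i) (x i v)
            else comb (A i) (p i) (x i v)))| ≤ K ^ n * (n * η) := by
        rw [← L_sub hL (bdd_prod _ fun i _ => hbt B i) (bdd_prod _ fun i _ => hbu i)]
        have h4 : Bdd (fun v => K ^ n * ∑ i, comb (M i) (h i) (x i v)) :=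
          bdd_smul _ (bdd_sum _ fun i _ => hbH i)
        refine (L_abs hL (bdd_sub (bdd_prod _ fun i _ => hbt B i) (bdd_prod _ fun i _ => hbu i))
          h4 fun v => ?_).trans ?_
        · have h5 := prod_diff (univ : Finset ι) K (by linarith)
            (fun i => if i ∈ B then c i v - comb (A i) (p i) (x i v) else comb (A i) (p i) (x i v))
            (fun i => if i ∈ B then comb (M i) (g i) (x i v) - comb (A i) (p i) (x i v)
              else comb (A i) (p i) (x i v))
            (fun i _ => by
              have a1 := hcP i v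
              have a2 := hE2 i v
              have a3 := hPE i v
              split_ifs <;> linarith)
            (fun i _ => by
              have a1 := hcP i v
              have a2 := hE2 i v
              have a3 := hPE i v
              have a4 := hcG i v
              have a5 := hH2 i v
              split_ifs
              · rw [abs_le] at a1 a4 ⊢
                constructor <;> linarith [a1.1, a1.2, a4.1, a4.2]
              · linarith)
          refine h5.trans ?_
          rw [← hn]
          refine mul_le_mul_of_nonneg_left (Finset.sum_le_sum fun i _ => ?_) (by positivity)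
          by_cases hi : i ∈ B
          · simp only [if_pos hi]
            have a4 := hcG i v
            have a6 : c i v - comb (A i) (p i) (x i v) - (comb (M i) (g i) (x i v) -
              comb (A i) (p i) (x i v)) = c i v - comb (M i) (g i) (x i v) := by ring
            rw [a6]
            exact a4
          · simp only [if_neg hi]
            rw [sub_self, abs_zero]
            exact hH0 i v
        · rw [hL.smul _ _ (bdd_sum _ fun i _ => hbH i), L_sum hL _ fun i _ => hbH i]
          refine mul_le_mul_of_nonneg_left ?_ (by positivity)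
          rw [Finset.sum_congr rfl fun i _ => hLH i, hn, ← nsmul_eq_mul, ← Finset.sum_const]
          exact Finset.sum_le_sum fun i _ => hh0 i
      -- second difference
      have hd2 : |∏ i, (if i ∈ B then g i 0 - p i 0 else p i 0) -
          ∏ i, (if i ∈ B then m i - p i 0 else p i 0)| ≤ K ^ n * (n * η) := by
        have h5 := prod_diff (univ : Finset ι) K (by linarith)
          (fun i => if i ∈ B then g i 0 - p i 0 else p i 0)
          (fun i => if i ∈ B then m i - p i 0 else p i 0)
          (fun i _ => by
            have a1 := hmp i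
            have a2 := hKe i
            have a3 := hpe i
            have a4 := hmg i
            have a5 := hh0 i
            split_ifs
            · rw [abs_le] at a1 a4 ⊢
              constructor <;> linarith [a1.1, a1.2, a4.1, a4.2]
            · linarith)
          (fun i _ => by
            have a1 := hmp i
            have a2 := hKe i
            have a3 := hpe i
            split_ifs <;> linarith)
        refine h5.trans ?_
        rw [← hn]
        refine mul_le_mul_of_nonneg_left ?_ (by positivity)
        rw [hn, ← nsmul_eq_mul, ← Finset.sum_const]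
        refine Finset.sum_le_sum fun i _ => ?_
        by_cases hi : i ∈ B
        · simp only [if_pos hi]
          have a4 := (hmg i).trans (hh0 i)
          rw [abs_sub_comm] at a4
          have a6 : g i 0 - p i 0 - (m i - p i 0) = g i 0 - m i := by ring
          rw [a6]
          exact a4
        · simp only [if_neg hi]
          rw [sub_self, abs_zero]
          exact hη.le
      rw [← hcomb] at hd2
      have h6 := abs_sub_le (L (fun v => ∏ i, (if i ∈ B then c i v - comb (A i) (p i) (x i v)
          else comb (A i) (p i) (x i v))))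
        (L (fun v => ∏ i, (if i ∈ B then comb (M i) (g i) (x i v) - comb (A i) (p i) (x i v)
            else comb (A i) (p i) (x i v)))) (∏ i, (if i ∈ B then m i - p i 0 else p i 0))
      linarith
    -- the limit
    obtain ⟨D, hD⟩ : ∃ D : ℝ, D = |L (fun v => ∏ i, (if i ∈ B then c i v -
          comb (A i) (p i) (x i v) else comb (A i) (p i) (x i v))) -
          ∏ i, (if i ∈ B then m i - p i 0 else p i 0)| := ⟨_, rfl⟩
    have hD0 : D ≤ 0 := by
      by_contra hcon
      push Not at hcon
      obtain ⟨Q, hQ⟩ : ∃ Q : ℝ, Q = 2 * (K ^ n * n) := ⟨_, rfl⟩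
      have hQ0 : 0 ≤ Q := by
        rw [hQ]
        positivity
      have h1 := key (min 1 (D / (2 * (Q + 1)))) (lt_min one_pos (by positivity)) (min_le_left _ _)
      rw [← hD] at h1
      have h2 : 2 * (K ^ n * (n * min 1 (D / (2 * (Q + 1))))) = Q * min 1 (D / (2 * (Q + 1))) := by
        rw [hQ]
        ring
      rw [h2] at h1
      have h3 : Q * min 1 (D / (2 * (Q + 1))) ≤ Q * (D / (2 * (Q + 1))) :=
        mul_le_mul_of_nonneg_left (min_le_right _ _) hQ0
      have h4 : Q * (D / (2 * (Q + 1))) ≤ D / 2 := by
        rw [mul_div_assoc', div_le_div_iff₀ (by positivity) (by norm_num)]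
        nlinarith
      linarith
    have hD1 : |L (fun v => ∏ i, (if i ∈ B then c i v -
          comb (A i) (p i) (x i v) else comb (A i) (p i) (x i v))) -
          ∏ i, (if i ∈ B then m i - p i 0 else p i 0)| = 0 :=
      le_antisymm (by rw [← hD]; exact hD0) (abs_nonneg _)
    exact sub_eq_zero.1 (abs_eq_zero.1 hD1)
  -- the terms with many elements
  have hlarge : ∀ B : Finset ι,
      |L (fun v => ∏ i, (if i ∈ B then c i v - comb (A i) (p i) (x i v)
        else comb (A i) (p i) (x i v))) - ∏ i, (if i ∈ B then m i - p i 0 else p i 0)| ≤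
      2 * ((∏ i ∈ B, ε i) * ∏ i ∈ Bᶜ, (1 + ε i)) := by
    intro B
    have hee : ∏ i, (if i ∈ B then e i 0 else 1 + e i 0) ≤
        (∏ i ∈ B, ε i) * ∏ i ∈ Bᶜ, (1 + ε i) := by
      rw [← prod_split]
      refine Finset.prod_le_prod (fun i _ => ?_) fun i _ => ?_
      · have := he0' i
        split_ifs <;> linarith
      · have := he0 i
        split_ifs <;> linarith
    have hcomb := hC X ι L hL x hx A k hV ∅ (by rw [Finset.card_empty]; omega) A hA
      (fun i _ => le_rfl)
      (fun i => if i ∈ B then e i else fun l => (if l = 0 then 1 else 0) + e i l)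
    have h2 : (fun v => ∏ i, comb (A i)
        (if i ∈ B then e i else fun l => (if l = 0 then 1 else 0) + e i l) (x i v)) =
        fun v => ∏ i, (if i ∈ B then comb (A i) (e i) (x i v)
          else 1 + comb (A i) (e i) (x i v)) := by
      funext v
      refine Finset.prod_congr rfl fun i _ => ?_
      by_cases hi : i ∈ B
      · rw [if_pos hi, if_pos hi]
      · rw [if_neg hi, if_neg hi, comb_add_one (hA i)]
    have h3 : ∏ i, (if i ∈ B then e i else fun l => (if l = 0 then 1 else 0) + e i l) 0 =
        ∏ i, (if i ∈ B then e i 0 else 1 + e i 0) := by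
      refine Finset.prod_congr rfl fun i _ => ?_
      by_cases hi : i ∈ B
      · rw [if_pos hi, if_pos hi]
      · rw [if_neg hi, if_neg hi, if_pos rfl]
    rw [h2, h3] at hcomb
    have hbw : ∀ i, Bdd (fun v => if i ∈ B then comb (A i) (e i) (x i v)
        else 1 + comb (A i) (e i) (x i v)) := by
      intro i
      by_cases hi : i ∈ B
      · simp only [if_pos hi]
        exact hbE i
      · simp only [if_neg hi]
        exact bdd_add (bdd_const 1) (hbE i)
    have h4 : |L (fun v => ∏ i, (if i ∈ B then c i v - comb (A i) (p i) (x i v)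
        else comb (A i) (p i) (x i v)))| ≤ ∏ i, (if i ∈ B then e i 0 else 1 + e i 0) := by
      rw [← hcomb]
      refine L_abs hL (bdd_prod _ fun i _ => hbt B i) (bdd_prod _ fun i _ => hbw i) fun v => ?_
      rw [Finset.abs_prod]
      refine Finset.prod_le_prod (fun i _ => abs_nonneg _) fun i _ => ?_
      by_cases hi : i ∈ B
      · rw [if_pos hi, if_pos hi]
        exact hcP i v
      · rw [if_neg hi, if_neg hi]
        exact hPE i v
    have h5 : |∏ i, (if i ∈ B then m i - p i 0 else p i 0)| ≤
        ∏ i, (if i ∈ B then e i 0 else 1 + e i 0) := by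
      rw [Finset.abs_prod]
      refine Finset.prod_le_prod (fun i _ => abs_nonneg _) fun i _ => ?_
      by_cases hi : i ∈ B
      · rw [if_pos hi, if_pos hi]
        exact hmp i
      · rw [if_neg hi, if_neg hi]
        exact hpe i
    have h6 := abs_sub (L (fun v => ∏ i, (if i ∈ B then c i v - comb (A i) (p i) (x i v)
        else comb (A i) (p i) (x i v)))) (∏ i, (if i ∈ B then m i - p i 0 else p i 0))
    linarith
  -- the sum
  have e1 : (fun v => ∏ i, c i v) = fun v => ∑ B ∈ (univ : Finset ι).powerset,
      ∏ i, (if i ∈ B then c i v - comb (A i) (p i) (x i v) else comb (A i) (p i) (x i v)) := by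
    funext v
    rw [← prod_expand]
    refine Finset.prod_congr rfl fun i _ => ?_
    ring
  have e2 : ∏ i, m i = ∑ B ∈ (univ : Finset ι).powerset,
      ∏ i, (if i ∈ B then m i - p i 0 else p i 0) := by
    rw [← prod_expand]
    refine Finset.prod_congr rfl fun i _ => ?_
    ring
  rw [e1, e2, L_sum hL _ fun B _ => bdd_prod _ fun i _ => hbt B i, ← Finset.sum_sub_distrib]
  refine (Finset.abs_sum_le_sum_abs _ _).trans ?_
  rw [Finset.mul_sum, Finset.sum_filter]
  refine Finset.sum_le_sum fun B _ => ?_
  split_ifs with hB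
  · exact hlarge B
  · rw [hsmall B (not_le.1 hB), sub_self, abs_zero]

end Pool.Agent.H225.WS
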